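import Pool.Agent.Helper6.Pq.Two

namespace Pool.Agent.Helper6.Pq

open MeasureTheory Set
open Pool.Agent.Helper53.Pq
open Pool.Agent.Helper28.NO (Lf Ok IsLaw ph hm mu muZ)

theorem vbd (hn : GNum) (θ : ℝ) (h0 : 1 / 6 ≤ θ) (h1 : θ ≤ 1 / 4) :
    0.01207 - 0.1566 * θ + 2.2033 * θ ^ 2 ≤ vv θ ∧ 0.04717 ≤ vv θ ∧ vv θ ≤ 0.11074 := by
  obtain ⟨a, b, -⟩ := hn.1 θ h0 h1
  refine ⟨a, ?_, ?_⟩
  · nlinarith [mul_nonneg (sub_nonneg.2 h0) (sub_nonneg.2 h0)]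
  · nlinarith [mul_nonneg (sub_nonneg.2 h0) (sub_nonneg.2 h1)]

theorem zbd (θ : ℝ) (h0 : 0.04717 ≤ vv θ) (h1 : vv θ ≤ 0.11074) :
    0.0035 ≤ zz θ ∧ zz θ ≤ 0.035386 := by
  unfold zz
  constructor <;> nlinarith

/-- Bound by absolute values. -/
theorem absb (θ : ℝ) (φ : ℝ → ℝ) (h : Fn θ φ)
    (t : ℝ) (ht : 0 ≤ t) : ∃ A B, φ t = Real.cos t * A - Real.sin t * B ∧
    1 - vv θ * t ^ 2 / 2 ≤ A ∧ A ≤ 1 - vv θ * t ^ 2 / 2 + zz θ * t ^ 4 / 24 ∧ |A| ≤ 1 ∧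
    -(zz θ * t ^ 4 / 36) ≤ B ∧ B ≤ 0.001 * t ^ 3 + zz θ * t ^ 4 / 36 ∧
    |φ t| ≤ |Real.cos t| * |A| + |Real.sin t| * |B| ∧ |B| ≤ 0.001 * t ^ 3 + zz θ * t ^ 4 / 36 := by
  obtain ⟨A, B, e, a1, a2, a3, b1, b2⟩ := h.ab t ht
  refine ⟨A, B, e, a1, a2, a3, b1, b2, ?_, ?_⟩
  · rw [e, ← abs_mul, ← abs_mul]; exact abs_sub _ _
  · rw [abs_le]
    have : 0 ≤ 0.001 * t ^ 3 := by positivity
    exact ⟨by linarith, b2⟩

theorem sinx (x : ℝ) (h0 : 0 ≤ x) (h1 : x ≤ 1) : Real.sin x ≤ x - x ^ 3 / 6 + x ^ 5 / 100 := by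
  have h := Real.sin_bound (x := x) (by rw [abs_of_nonneg h0]; exact h1)
  rw [abs_of_nonneg h0] at h
  linarith [(abs_le.1 h).2]

theorem sinlow (x : ℝ) (h0 : 0 ≤ x) : x - x ^ 3 / 6 ≤ Real.sin x := by
  rcases h0.eq_or_lt with h | h
  · rw [← h]; simp
  · exact (Real.sin_gt_sub_cube h).le

theorem cosup (s : ℝ) (h0 : 0 ≤ s) (h1 : s ≤ 1.1125) : Real.cos s ≤ 1 - 0.448 * s ^ 2 := by
  have h := sinlow (s / 2) (by positivity)
  have e : Real.cos s = 1 - 2 * Real.sin (s / 2) ^ 2 := by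
    rw [show s = 2 * (s / 2) by ring, Real.cos_two_mul, Real.cos_sq']
    ring_nf
  have h2 : s ^ 2 ≤ 1.2377 := by nlinarith
  have h3 : 0.4733 * s ≤ s / 2 - (s / 2) ^ 3 / 6 := by
    have : s / 2 - (s / 2) ^ 3 / 6 - 0.4733 * s = s * (1 / 2 - 0.4733 - s ^ 2 / 48) := by ring
    nlinarith [mul_nonneg h0 (by linarith : (0:ℝ) ≤ 1 / 2 - 0.4733 - s ^ 2 / 48)]
  have h4 : 0.4733 * s ≤ Real.sin (s / 2) := h3.trans h
  rw [e]
  nlinarith [mul_self_le_mul_self (by positivity : (0:ℝ) ≤ 0.4733 * s) h4]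

theorem sinup (s : ℝ) (h0 : 0 ≤ s) (h1 : s ≤ 1.1125) : Real.sin s ≤ s - 0.15 * s ^ 3 := by
  have h := sinx (s / 2) (by positivity) (by linarith)
  have hl := sinlow (s / 2) (by positivity)
  have e : Real.sin s = 2 * Real.sin (s / 2) * Real.cos (s / 2) := by
    rw [← Real.sin_two_mul]; ring_nf
  have hc : Real.cos (s / 2) ≤ 1 - 0.12 * s ^ 2 := by
    have := Real.cos_bound (x := s / 2) (by rw [abs_of_nonneg (by positivity)]; linarith)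
    rw [abs_of_nonneg (by positivity : (0:ℝ) ≤ s / 2)] at this
    have h2 := (abs_le.1 this).2
    have h3 : s ^ 4 ≤ 1.2377 * s ^ 2 := by
      have : s ^ 2 ≤ 1.2377 := by nlinarith
      nlinarith [sq_nonneg s]
    nlinarith
  have h2 : s ^ 2 ≤ 1.2377 := by nlinarith
  have hs : Real.sin (s / 2) ≤ s / 2 - 0.0203 * s ^ 3 := by
    have h3 : s ^ 5 ≤ 1.2377 * s ^ 3 := by
      have : 0 ≤ s ^ 3 := by positivity
      nlinarith
    have h5 : 0 ≤ s ^ 3 := by positivity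
    nlinarith
  have hs0 : 0 ≤ Real.sin (s / 2) := by
    refine le_trans ?_ hl
    have : s / 2 - (s / 2) ^ 3 / 6 = s * (1 / 2 - s ^ 2 / 48) := by ring
    rw [this]
    exact mul_nonneg h0 (by linarith)
  have hc0 : 0 ≤ 1 - 0.12 * s ^ 2 := by linarith
  rw [e]
  calc 2 * Real.sin (s / 2) * Real.cos (s / 2)
      ≤ 2 * Real.sin (s / 2) * (1 - 0.12 * s ^ 2) := mul_le_mul_of_nonneg_left hc (by positivity)
    _ ≤ 2 * (s / 2 - 0.0203 * s ^ 3) * (1 - 0.12 * s ^ 2) :=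
        mul_le_mul_of_nonneg_right (by linarith) hc0
    _ ≤ s - 0.15 * s ^ 3 := by
        have h5 : 0 ≤ s ^ 3 := by positivity
        have : s - 0.15 * s ^ 3 - 2 * (s / 2 - 0.0203 * s ^ 3) * (1 - 0.12 * s ^ 2) =
          s ^ 3 * (0.12 + 0.0406 - 0.15 - 0.004872 * s ^ 2) := by ring
        nlinarith [mul_nonneg h5 (by linarith : (0:ℝ) ≤ 0.12 + 0.0406 - 0.15 - 0.004872 * s ^ 2)]

noncomputable def BD (s v : ℝ) : ℝ :=
  (s - 0.15 * s ^ 3) * (1 - v * (4.7123 - s) ^ 2 / 2 + (2.6 * v ^ 2 + 0.0035) * (4.7124 - s) ^ 4 / 24) +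
  (1 - 0.448 * s ^ 2) * (0.001 * (4.7124 - s) ^ 3 + (2.6 * v ^ 2 + 0.0035) * (4.7124 - s) ^ 4 / 36)

theorem bd0 (s : ℝ) (h0 : 0 ≤ s) (h1 : s ≤ 1.1125) : BD s 0.04717 ≤ 0.8 := by
  unfold BD
  have hb : 0 ≤ 1.1125 - s := by linarith
  linarith [mul_nonneg (pow_nonneg h0 0) (pow_nonneg hb 7), mul_nonneg (pow_nonneg h0 1) (pow_nonneg hb 6),
    mul_nonneg (pow_nonneg h0 2) (pow_nonneg hb 5), mul_nonneg (pow_nonneg h0 3) (pow_nonneg hb 4),
    mul_nonneg (pow_nonneg h0 4) (pow_nonneg hb 3), mul_nonneg (pow_nonneg h0 5) (pow_nonneg hb 2),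
    mul_nonneg (pow_nonneg h0 6) (pow_nonneg hb 1), mul_nonneg (pow_nonneg h0 7) (pow_nonneg hb 0)]

theorem bd1 (s : ℝ) (h0 : 0 ≤ s) (h1 : s ≤ 1.1125) : BD s 0.11074 ≤ 0.615 := by
  unfold BD
  have hb : 0 ≤ 1.1125 - s := by linarith
  linarith [mul_nonneg (pow_nonneg h0 0) (pow_nonneg hb 7), mul_nonneg (pow_nonneg h0 1) (pow_nonneg hb 6),
    mul_nonneg (pow_nonneg h0 2) (pow_nonneg hb 5), mul_nonneg (pow_nonneg h0 3) (pow_nonneg hb 4),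
    mul_nonneg (pow_nonneg h0 4) (pow_nonneg hb 3), mul_nonneg (pow_nonneg h0 5) (pow_nonneg hb 2),
    mul_nonneg (pow_nonneg h0 6) (pow_nonneg hb 1), mul_nonneg (pow_nonneg h0 7) (pow_nonneg hb 0)]

theorem bdv (s v θ : ℝ) (h0 : 0 ≤ s) (h1 : s ≤ 1.1125) (hv0 : 0.04717 ≤ v) (hv1 : v ≤ 0.11074)
    (hv : 0.01207 - 0.1566 * θ + 2.2033 * θ ^ 2 ≤ v) :
    BD s v ≤ 1.1835 - 2.2 * θ := by
  obtain ⟨l, hl, l0, l1⟩ : ∃ l, v = 0.04717 + l * 0.06357 ∧ 0 ≤ l ∧ l ≤ 1 :=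
    ⟨(v - 0.04717) / 0.06357, by ring, div_nonneg (by linarith) (by norm_num),
      (div_le_one (by norm_num)).2 (by linarith)⟩
  have k0 := bd0 s h0 h1
  have k1 := bd1 s h0 h1
  have e : (1 - l) * BD s 0.04717 + l * BD s 0.11074 - BD s v =
      ((s - 0.15 * s ^ 3) * (2.6 * (4.7124 - s) ^ 4 / 24) +
        (1 - 0.448 * s ^ 2) * (2.6 * (4.7124 - s) ^ 4 / 36)) * (l * (1 - l) * 0.06357 ^ 2) := by
    rw [hl]; unfold BD; ring
  have e2 : 0 ≤ ((s - 0.15 * s ^ 3) * (2.6 * (4.7124 - s) ^ 4 / 24) +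
        (1 - 0.448 * s ^ 2) * (2.6 * (4.7124 - s) ^ 4 / 36)) * (l * (1 - l) * 0.06357 ^ 2) := by
    have h2 : s ^ 2 ≤ 1.2377 := by nlinarith
    have h3 : 0 ≤ s - 0.15 * s ^ 3 := by
      have : s - 0.15 * s ^ 3 = s * (1 - 0.15 * s ^ 2) := by ring
      rw [this]; exact mul_nonneg h0 (by linarith)
    have h4 : 0 ≤ 1 - 0.448 * s ^ 2 := by linarith
    have h5 : 0 ≤ 1 - l := by linarith
    positivity
  have e3 := mul_le_mul_of_nonneg_left k0 (by linarith : 0 ≤ 1 - l)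
  have e4 := mul_le_mul_of_nonneg_left k1 l0
  have e5 : (1 - l) * 0.8 + l * 0.615 ≤ 1.1835 - 2.2 * θ := by
    nlinarith [sq_nonneg (θ - 5 / 24)]
  linarith

theorem partD (θ : ℝ) (φ : ℝ → ℝ) (h : Fn θ φ) (hv0 : 0.04717 ≤ vv θ) (hv1 : vv θ ≤ 0.11074)
    (hv : 0.01207 - 0.1566 * θ + 2.2033 * θ ^ 2 ≤ vv θ) (t : ℝ) (h0 : 3.6 ≤ t)
    (h1 : t ≤ 3 * Real.pi / 2) : |φ t| ≤ HH θ := by
  have p1 := Real.pi_gt_d6
  have p2 := Real.pi_lt_d6
  obtain ⟨A, B, e, a1, a2, a3, b1, b2, g, gB⟩ := absb θ φ h t (by linarith)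
  obtain ⟨z0, z1⟩ := zbd θ hv0 hv1
  obtain ⟨s, hs⟩ : ∃ s, s = 3 * Real.pi / 2 - t := ⟨_, rfl⟩
  have hts : t = 3 * Real.pi / 2 - s := by linarith
  have hs0 : 0 ≤ s := by linarith
  have hs1 : s ≤ 1.1125 := by linarith
  have hcos : Real.cos t = -Real.sin s := by
    rw [hts, show 3 * Real.pi / 2 - s = (Real.pi / 2 - s) + Real.pi by ring, Real.cos_add_pi,
      Real.cos_pi_div_two_sub]
  have hsin : Real.sin t = -Real.cos s := by
    rw [hts, show 3 * Real.pi / 2 - s = (Real.pi / 2 - s) + Real.pi by ring, Real.sin_add_pi,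
      Real.sin_pi_div_two_sub]
  have hsn0 : 0 ≤ Real.sin s := Real.sin_nonneg_of_nonneg_of_le_pi hs0 (by linarith)
  have hcs0 : 0 ≤ Real.cos s := Real.cos_nonneg_of_neg_pi_div_two_le_of_le (by linarith) (by linarith)
  rw [hcos, hsin, abs_neg, abs_neg, abs_of_nonneg hsn0, abs_of_nonneg hcs0] at g
  have t1 : 4.7123 - s ≤ t := by linarith
  have t2 : t ≤ 4.7124 - s := by linarith
  have hX : vv θ * t ^ 2 ≤ 2.46 := by
    have : t ^ 2 ≤ 22.207 := by nlinarith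
    nlinarith
  have hX0 : 0 ≤ vv θ * t ^ 2 := by positivity
  have hz : 2.6 * (vv θ * t ^ 2) ^ 2 ≤ zz θ * t ^ 4 := by
    have : zz θ * t ^ 4 = 2.6 * (vv θ * t ^ 2) ^ 2 + 0.0035 * t ^ 4 := by unfold zz; ring
    rw [this]
    have : 0 ≤ t ^ 4 := by positivity
    linarith
  have hA : |A| ≤ 1 - vv θ * t ^ 2 / 2 + zz θ * t ^ 4 / 24 := by
    rw [abs_le]
    refine ⟨?_, a2⟩
    nlinarith [mul_nonneg (sub_nonneg.2 hX) (sub_nonneg.2 hX)]
  have hU : 1 - vv θ * t ^ 2 / 2 + zz θ * t ^ 4 / 24 ≤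
      1 - vv θ * (4.7123 - s) ^ 2 / 2 + (2.6 * vv θ ^ 2 + 0.0035) * (4.7124 - s) ^ 4 / 24 := by
    have e1 : (4.7123 - s) ^ 2 ≤ t ^ 2 := pow_le_pow_left₀ (by linarith) t1 2
    have e2 : t ^ 4 ≤ (4.7124 - s) ^ 4 := pow_le_pow_left₀ (by linarith) t2 4
    have e3 := mul_le_mul_of_nonneg_left e1 (by linarith : 0 ≤ vv θ)
    have e4 := mul_le_mul_of_nonneg_left e2 (by linarith : 0 ≤ zz θ)
    have e5 : zz θ = 2.6 * vv θ ^ 2 + 0.0035 := rfl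
    rw [← e5]
    linarith
  have hW : 0.001 * t ^ 3 + zz θ * t ^ 4 / 36 ≤
      0.001 * (4.7124 - s) ^ 3 + (2.6 * vv θ ^ 2 + 0.0035) * (4.7124 - s) ^ 4 / 36 := by
    have e1 : t ^ 3 ≤ (4.7124 - s) ^ 3 := pow_le_pow_left₀ (by linarith) t2 3
    have e2 : t ^ 4 ≤ (4.7124 - s) ^ 4 := pow_le_pow_left₀ (by linarith) t2 4
    have e4 := mul_le_mul_of_nonneg_left e2 (by linarith : 0 ≤ zz θ)
    have e5 : zz θ = 2.6 * vv θ ^ 2 + 0.0035 := rfl
    rw [← e5]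
    linarith
  have k1 : Real.sin s * |A| ≤ (s - 0.15 * s ^ 3) * (1 - vv θ * (4.7123 - s) ^ 2 / 2 +
      (2.6 * vv θ ^ 2 + 0.0035) * (4.7124 - s) ^ 4 / 24) :=
    mul_le_mul (sinup s hs0 hs1) (hA.trans hU) (abs_nonneg A) (hsn0.trans (sinup s hs0 hs1))
  have k2 : Real.cos s * |B| ≤ (1 - 0.448 * s ^ 2) * (0.001 * (4.7124 - s) ^ 3 +
      (2.6 * vv θ ^ 2 + 0.0035) * (4.7124 - s) ^ 4 / 36) :=
    mul_le_mul (cosup s hs0 hs1) (gB.trans hW) (abs_nonneg B) (hcs0.trans (cosup s hs0 hs1))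
  have k3 := bdv s (vv θ) θ hs0 hs1 hv0 hv1 hv
  unfold BD at k3
  unfold HH
  linarith

theorem partA (θ : ℝ) (φ : ℝ → ℝ) (h : Fn θ φ) (hv0 : 0.04717 ≤ vv θ) (hv1 : vv θ ≤ 0.11074)
    (t : ℝ) (h0 : Real.pi / 2 ≤ t) (h1 : t ≤ 2.2) : |φ t| ≤ HH θ := by
  have p1 := Real.pi_gt_d6
  have p2 := Real.pi_lt_d6
  obtain ⟨A, B, e, a1, a2, a3, b1, b2, g, gB⟩ := absb θ φ h t (by linarith)
  obtain ⟨z0, z1⟩ := zbd θ hv0 hv1
  obtain ⟨x, hx⟩ : ∃ x, x = t - Real.pi / 2 := ⟨_, rfl⟩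
  have hx0 : 0 ≤ x := by linarith
  have hx1 : x ≤ 0.6293 := by linarith
  have hcos : Real.cos t = -Real.sin x := by
    rw [show t = x + Real.pi / 2 by linarith, Real.cos_add_pi_div_two]
  have hsn0 : 0 ≤ Real.sin x := Real.sin_nonneg_of_nonneg_of_le_pi hx0 (by linarith)
  have hs1 : Real.sin x ≤ 0.589 := by
    have k := sinx 0.6293 (by norm_num) (by norm_num)
    have k2 : Real.sin x ≤ Real.sin 0.6293 :=
      Real.sin_le_sin_of_le_of_le_pi_div_two (by linarith) (by linarith) hx1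
    norm_num at k
    linarith
  have hB : |B| ≤ 0.0337 := by
    have e3 : t ^ 3 ≤ 2.2 ^ 3 := pow_le_pow_left₀ (by linarith) h1 3
    have e4 : t ^ 4 ≤ 2.2 ^ 4 := pow_le_pow_left₀ (by linarith) h1 4
    have e5 : zz θ * t ^ 4 ≤ 0.035386 * 2.2 ^ 4 := mul_le_mul z1 e4 (by positivity) (by norm_num)
    norm_num at e3 e5
    linarith
  rw [hcos, abs_neg, abs_of_nonneg hsn0] at g
  have k1 : Real.sin x * |A| ≤ 0.589 * 1 := mul_le_mul hs1 a3 (abs_nonneg A) (by norm_num)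
  have k2 : |Real.sin t| * |B| ≤ 1 * 0.0337 :=
    mul_le_mul (Real.abs_sin_le_one t) hB (abs_nonneg B) (by norm_num)
  have := h.hi
  unfold HH
  linarith

theorem partBC (θ : ℝ) (φ : ℝ → ℝ) (h : Fn θ φ) (hv0 : 0.04717 ≤ vv θ) (hv1 : vv θ ≤ 0.11074)
    (hv : 0.01207 - 0.1566 * θ + 2.2033 * θ ^ 2 ≤ vv θ) (t : ℝ) (h0 : 2.2 ≤ t) (h1 : t ≤ 3.6) :
    |φ t| ≤ HH θ := by
  have p1 := Real.pi_gt_d6
  have p2 := Real.pi_lt_d6
  obtain ⟨A, B, e, a1, a2, a3, b1, b2, g, gB⟩ := absb θ φ h t (by linarith)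
  obtain ⟨z0, z1⟩ := zbd θ hv0 hv1
  have hlo := h.lo
  have hhi := h.hi
  rw [abs_le]
  constructor
  · have hj := h.jj t (by linarith)
    rcases le_total t Real.pi with c | c
    · rw [max_eq_right (by linarith)] at hj
      have k := boundJ t (vv θ) θ (by linarith) (by linarith) hv1 hv hlo hhi
      unfold KJ at k
      unfold zz at hj
      unfold HH
      have e1 : (t - Real.pi) ^ 2 = (Real.pi - t) ^ 2 := by ring
      have e2 : (t - Real.pi) ^ 4 = (Real.pi - t) ^ 4 := by ring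
      rw [e1, e2] at hj
      nlinarith
    · rw [max_eq_left (by linarith)] at hj
      have k := boundN t (vv θ) θ (by linarith) (by linarith) (by linarith) hv1 hv hlo hhi
      unfold KN at k
      unfold zz at hj
      unfold HH
      have e1 : (t - Real.pi) ^ 2 = (Real.pi - t) ^ 2 := by ring
      have e2 : (t - Real.pi) ^ 4 = (Real.pi - t) ^ 4 := by ring
      rw [e1, e2] at hj
      nlinarith
  · have hc : Real.cos t ≤ 0 :=
      Real.cos_nonpos_of_pi_div_two_le_of_le (by linarith) (by linarith)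
    have hA : 0 ≤ A := by
      have : vv θ * t ^ 2 ≤ 0.11074 * 12.96 := by
        have : t ^ 2 ≤ 12.96 := by nlinarith
        exact mul_le_mul hv1 this (by positivity) (by norm_num)
      norm_num at this
      linarith
    have hB : |B| ≤ 0.22 := by
      have e3 : t ^ 3 ≤ 3.6 ^ 3 := pow_le_pow_left₀ (by linarith) h1 3
      have e4 : t ^ 4 ≤ 3.6 ^ 4 := pow_le_pow_left₀ (by linarith) h1 4
      have e5 : zz θ * t ^ 4 ≤ 0.035386 * 3.6 ^ 4 := mul_le_mul z1 e4 (by positivity) (by norm_num)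
      norm_num at e3 e5
      linarith
    have k1 : Real.cos t * A ≤ 0 := mul_nonpos_of_nonpos_of_nonneg hc hA
    have k2 : |Real.sin t| * |B| ≤ 1 * 0.22 :=
      mul_le_mul (Real.abs_sin_le_one t) hB (abs_nonneg B) (by norm_num)
    have k3 : -(Real.sin t * B) ≤ |Real.sin t| * |B| := by
      rw [← abs_mul]; exact neg_le_abs _
    rw [e]
    unfold HH
    linarith

theorem partS1 (θ : ℝ) (φ : ℝ → ℝ) (h : Fn θ φ) (hv0 : 0.04717 ≤ vv θ) (hv1 : vv θ ≤ 0.11074)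
    (t : ℝ) (h0 : 0 ≤ t) (h1 : t ≤ 1.555) : 0 ≤ φ t := by
  have p1 := Real.pi_gt_d6
  have p2 := Real.pi_lt_d6
  obtain ⟨A, B, e, a1, a2, a3, b1, b2, g, gB⟩ := absb θ φ h t h0
  obtain ⟨z0, z1⟩ := zbd θ hv0 hv1
  obtain ⟨x, hx⟩ : ∃ x, x = Real.pi / 2 - t := ⟨_, rfl⟩
  have hx0 : 0.01579 ≤ x := by linarith
  have hx1 : x ≤ 1.571 := by linarith
  have hcos : Real.cos t = Real.sin x := by
    rw [show t = Real.pi / 2 - x by linarith, Real.cos_pi_div_two_sub]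
  have hs : 0.0157 ≤ Real.sin x := by
    refine le_trans ?_ (sinlow x (by linarith))
    have : x - x ^ 3 / 6 - 0.0157 = (x - 0.0157) * (1 - x * (x + 0.0157) / 6) -
      0.0157 * x * 0.0157 / 6 - 0.0157 * x * 0.0157 * 0 +
      (x * 0.0157 * 0.0157 / 6 - x * 0.0157 * 0.0157 / 6) + 
      (-(x ^ 3 / 6) + (x - 0.0157) * (x * (x + 0.0157)) / 6 + 0.0157 * x * 0.0157 / 6) := by ring
    nlinarith [mul_nonneg (sub_nonneg.2 hx0) (sub_nonneg.2 hx1), mul_nonneg (mul_nonneg (sub_nonneg.2 hx0) (sub_nonneg.2 hx1)) (by linarith : 0 ≤ x)]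
  have hA : 0.866 ≤ A := by
    have : vv θ * t ^ 2 ≤ 0.11074 * 1.555 ^ 2 := by
      have : t ^ 2 ≤ 1.555 ^ 2 := pow_le_pow_left₀ h0 h1 2
      exact mul_le_mul hv1 this (by positivity) (by norm_num)
    norm_num at this
    linarith
  have hB : |B| ≤ 0.0096 := by
    have e3 : t ^ 3 ≤ 1.555 ^ 3 := pow_le_pow_left₀ (by linarith) h1 3
    have e4 : t ^ 4 ≤ 1.555 ^ 4 := pow_le_pow_left₀ (by linarith) h1 4
    have e5 : zz θ * t ^ 4 ≤ 0.035386 * 1.555 ^ 4 := mul_le_mul z1 e4 (by positivity) (by norm_num)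
    norm_num at e3 e5
    linarith
  have k1 : 0.0157 * 0.866 ≤ Real.sin x * A := mul_le_mul hs hA (by norm_num) (by linarith)
  have k2 : |Real.sin t| * |B| ≤ 1 * 0.0096 :=
    mul_le_mul (Real.abs_sin_le_one t) hB (abs_nonneg B) (by norm_num)
  have k3 : Real.sin t * B ≤ |Real.sin t| * |B| := by
    rw [← abs_mul]; exact le_abs_self _
  rw [e, hcos]
  linarith

theorem partS3 (θ : ℝ) (φ : ℝ → ℝ) (h : Fn θ φ) (hv0 : 0.04717 ≤ vv θ) (hv1 : vv θ ≤ 0.11074)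
    (t : ℝ) (h0 : Real.pi / 2 ≤ t) (h1 : t ≤ 1.58) : |φ t| ≤ 0.0185 := by
  have p1 := Real.pi_gt_d6
  have p2 := Real.pi_lt_d6
  obtain ⟨A, B, e, a1, a2, a3, b1, b2, g, gB⟩ := absb θ φ h t (by linarith)
  obtain ⟨z0, z1⟩ := zbd θ hv0 hv1
  obtain ⟨x, hx⟩ : ∃ x, x = t - Real.pi / 2 := ⟨_, rfl⟩
  have hx0 : 0 ≤ x := by linarith
  have hx1 : x ≤ 0.009205 := by linarith
  have hcos : Real.cos t = -Real.sin x := by
    rw [show t = x + Real.pi / 2 by linarith, Real.cos_add_pi_div_two]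
  have hsn0 : 0 ≤ Real.sin x := Real.sin_nonneg_of_nonneg_of_le_pi hx0 (by linarith)
  have hs1 : Real.sin x ≤ 0.009205 := (Real.sin_le hx0).trans hx1
  have e2 : 1.5707 ^ 2 ≤ t ^ 2 := pow_le_pow_left₀ (by norm_num) (by linarith) 2
  have e3 : t ^ 3 ≤ 1.58 ^ 3 := pow_le_pow_left₀ (by linarith) h1 3
  have e4 : t ^ 4 ≤ 1.58 ^ 4 := pow_le_pow_left₀ (by linarith) h1 4
  have e5 : zz θ * t ^ 4 ≤ zz θ * 1.58 ^ 4 := mul_le_mul_of_nonneg_left e4 (by linarith)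
  have e6 : vv θ * 1.5707 ^ 2 ≤ vv θ * t ^ 2 := mul_le_mul_of_nonneg_left e2 (by linarith)
  have e7 : t ^ 2 ≤ 1.58 ^ 2 := pow_le_pow_left₀ (by linarith) h1 2
  have e8 : vv θ * t ^ 2 ≤ 0.11074 * 1.58 ^ 2 := mul_le_mul hv1 e7 (by positivity) (by norm_num)
  norm_num at e3 e5 e6 e8
  have hA0 : 0 ≤ A := by linarith
  have hA : |A| ≤ 1 - 1.2335 * vv θ + 0.25968 * zz θ := by
    rw [abs_of_nonneg hA0]; linarith
  have hB : |B| ≤ 0.0039444 + 0.17312 * zz θ := by linarith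
  rw [hcos, abs_neg, abs_of_nonneg hsn0] at g
  have k1 : Real.sin x * |A| ≤ 0.009205 * (1 - 1.2335 * vv θ + 0.25968 * zz θ) :=
    mul_le_mul hs1 hA (abs_nonneg A) (by norm_num)
  have k2 : |Real.sin t| * |B| ≤ 1 * (0.0039444 + 0.17312 * zz θ) :=
    mul_le_mul (Real.abs_sin_le_one t) hB (abs_nonneg B) (by norm_num)
  unfold zz at k1 k2
  nlinarith [mul_nonneg (sub_nonneg.2 hv0) (sub_nonneg.2 hv1)]

theorem partS2 (θ : ℝ) (φ : ℝ → ℝ) (h : Fn θ φ) (hv0 : 0.04717 ≤ vv θ) (hv1 : vv θ ≤ 0.11074)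
    (t : ℝ) (h0 : 1.58 ≤ t) (h1 : t ≤ 3) : φ t ≤ 0 := by
  have p1 := Real.pi_gt_d6
  have p2 := Real.pi_lt_d6
  obtain ⟨A, B, e, a1, a2, a3, b1, b2, g, gB⟩ := absb θ φ h t (by linarith)
  obtain ⟨z0, z1⟩ := zbd θ hv0 hv1
  obtain ⟨x, hx⟩ : ∃ x, x = t - Real.pi / 2 := ⟨_, rfl⟩
  have hx0 : 0.0092 ≤ x := by linarith
  have hx1 : x ≤ 1.43 := by linarith
  have hcos : Real.cos t = -Real.sin x := by
    rw [show t = x + Real.pi / 2 by linarith, Real.cos_add_pi_div_two]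
  have hsn0 : 0 ≤ Real.sin t := Real.sin_nonneg_of_nonneg_of_le_pi (by linarith) (by linarith)
  have hs := sinlow x (by linarith)
  have hz4 : zz θ * t ^ 4 ≤ 0.035386 * t ^ 4 := mul_le_mul_of_nonneg_right z1 (by positivity)
  have key : 0.035386 * t ^ 4 / 36 ≤ Real.sin x * A := by
    rcases le_total x 0.1 with c | c
    · have k1 : 0.0091 ≤ Real.sin x := by
        nlinarith [mul_nonneg (sub_nonneg.2 hx0) (sub_nonneg.2 c)]
      have k2 : t ≤ 1.6708 := by linarith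
      have k3 : t ^ 4 ≤ 1.6708 ^ 4 := pow_le_pow_left₀ (by linarith) k2 4
      have k4 : vv θ * t ^ 2 ≤ 0.11074 * 1.6708 ^ 2 :=
        mul_le_mul hv1 (pow_le_pow_left₀ (by linarith) k2 2) (by positivity) (by norm_num)
      norm_num at k3 k4
      have k5 : 0.845 ≤ A := by linarith
      have k6 : 0.0091 * 0.845 ≤ Real.sin x * A := mul_le_mul k1 k5 (by norm_num) (by linarith)
      linarith
    · have kA : 0.5 ≤ A := by
        have : vv θ * t ^ 2 ≤ 0.11074 * 9 := by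
          have : t ^ 2 ≤ 9 := by nlinarith
          exact mul_le_mul hv1 this (by positivity) (by norm_num)
        norm_num at this
        linarith
      have ks : 0.65 * x ≤ Real.sin x := by
        refine le_trans ?_ hs
        have : x - x ^ 3 / 6 - 0.65 * x = x * (0.35 - x ^ 2 / 6) := by ring
        nlinarith [mul_nonneg (by linarith : 0 ≤ x) (by nlinarith : 0 ≤ 0.35 - x ^ 2 / 6)]
      rcases le_total x 0.3 with c2 | c2
      · have k3 : t ^ 4 ≤ 1.871 ^ 4 := pow_le_pow_left₀ (by linarith) (by linarith) 4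
        norm_num at k3
        have k6 : 0.065 * 0.5 ≤ Real.sin x * A :=
          mul_le_mul (by linarith) kA (by norm_num) (by linarith)
        linarith
      · have k3 : t ^ 4 ≤ 3 ^ 4 := pow_le_pow_left₀ (by linarith) (by linarith) 4
        norm_num at k3
        have k6 : 0.195 * 0.5 ≤ Real.sin x * A :=
          mul_le_mul (by linarith) kA (by norm_num) (by linarith)
        linarith
  have k7 : -(Real.sin t * B) ≤ zz θ * t ^ 4 / 36 := by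
    have hs1 := Real.sin_le_one t
    have : 0 ≤ zz θ * t ^ 4 / 36 := by
      have : 0 ≤ zz θ := by linarith
      positivity
    nlinarith [mul_nonneg hsn0 (by linarith : 0 ≤ B + zz θ * t ^ 4 / 36), mul_nonneg (sub_nonneg.2 hs1) this]
  rw [e, hcos]
  linarith

theorem gH : GH := by
  intro hn θ φ h
  obtain ⟨hv, hv0, hv1⟩ := vbd hn θ h.lo h.hi
  refine ⟨fun t ht => ?_, partS1 θ φ h hv0 hv1, partS2 θ φ h hv0 hv1, partS3 θ φ h hv0 hv1⟩
  rcases le_total t 2.2 with c | c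
  · exact partA θ φ h hv0 hv1 t ht c
  rcases le_total t 3.6 with c2 | c2
  · exact partBC θ φ h hv0 hv1 hv t c c2
  rcases le_total t (3 * Real.pi / 2) with c3 | c3
  · exact partD θ φ h hv0 hv1 hv t c2 c3
  · exact h.tv t c3

end Pool.Agent.Helper6.Pq
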