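import Pool.Agent.Helper6.Pq.Uni

namespace Pool.Agent.Helper6.Pq

open MeasureTheory Set
open Pool.Agent.Helper53.Pq
open Pool.Agent.Helper28.NO (Lf Ok IsLaw ph hm mu muZ)

theorem hmono (t v w : ℝ) (h2 : 11 / 5 ≤ t) (h3 : t ≤ 18 / 5) (hv : v ≤ 0.11074)
    (hw : w ≤ v) :
    2.6 * (v + w) * t ^ 2 / 24 + (Real.pi - t) ^ 2 / 4 ≤ 1 / 2 := by
  have p1 := Real.pi_gt_d6
  have p2 := Real.pi_lt_d6
  have e1 : 2.6 * (v + w) * t ^ 2 / 24 ≤ 0.024 * t ^ 2 := by nlinarith [sq_nonneg t]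
  have e2 : (Real.pi - t) ^ 2 ≤ 0.89 := by
    have a1 : Real.pi - t ≤ 0.942 := by linarith
    have a2 : -0.942 ≤ Real.pi - t := by linarith
    nlinarith
  rcases le_total t 3.1 with h | h
  · nlinarith
  · have e3 : (Real.pi - t) ^ 2 ≤ 0.22 := by
      have a1 : Real.pi - t ≤ 0.459 := by linarith
      have a2 : -0.459 ≤ Real.pi - t := by linarith
      nlinarith
    nlinarith

theorem monoJ (t v w : ℝ) (h2 : 11 / 5 ≤ t) (h3 : t ≤ 18 / 5) (hv : v ≤ 0.11074)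
    (hw : w ≤ v) : KJ t (Real.pi - t) v ≤ KJ t (Real.pi - t) w := by
  have h := hmono t v w h2 h3 hv hw
  have h4 : 0 ≤ (v - w) * t ^ 2 * (1 / 2 - (2.6 * (v + w) * t ^ 2 / 24 + (Real.pi - t) ^ 2 / 4)) :=
    mul_nonneg (mul_nonneg (by linarith) (sq_nonneg t)) (by linarith)
  have h5 : KJ t (Real.pi - t) w - KJ t (Real.pi - t) v =
    (v - w) * t ^ 2 * (1 / 2 - (2.6 * (v + w) * t ^ 2 / 24 + (Real.pi - t) ^ 2 / 4)) := by
    unfold KJ; ring
  linarith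

theorem monoN (t v w : ℝ) (h2 : 11 / 5 ≤ t) (h3 : t ≤ 18 / 5) (hv : v ≤ 0.11074)
    (hw : w ≤ v) : KN t (Real.pi - t) v ≤ KN t (Real.pi - t) w := by
  have h := hmono t v w h2 h3 hv hw
  have h4 : 0 ≤ (v - w) * t ^ 2 * (1 / 2 - (2.6 * (v + w) * t ^ 2 / 24 + (Real.pi - t) ^ 2 / 4)) :=
    mul_nonneg (mul_nonneg (by linarith) (sq_nonneg t)) (by linarith)
  have h5 : KN t (Real.pi - t) w - KN t (Real.pi - t) v =
    (v - w) * t ^ 2 * (1 / 2 - (2.6 * (v + w) * t ^ 2 / 24 + (Real.pi - t) ^ 2 / 4)) := by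
    unfold KN; ring
  linarith

theorem shiftaux (t w s : ℝ) (h2 : 11 / 5 ≤ t) (h3 : t ≤ 18 / 5) (hw0 : 0 ≤ w) (hw : w ≤ 0.12)
    (s0 : -0.46 ≤ s) (s1 : s ≤ 0.95) (d : ℝ) (hd : 0 ≤ d) (hd1 : d ≤ 0.000001) :
    KJ t (s + d) w ≤ KJ t s w + 0.00001 ∧ KN t (s + d) w ≤ KN t s w + 0.00001 := by
  have ht2 : t ^ 2 ≤ 13 := by nlinarith
  have ht3 : t ^ 3 ≤ 47 := by nlinarith [mul_nonneg (sq_nonneg t) (by linarith : (0:ℝ) ≤ 18 / 5 - t)]
  have e1 : t ^ 2 * w ≤ 1.56 := by nlinarith [sq_nonneg t]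
  have e0 : 0 ≤ t ^ 2 * w := mul_nonneg (sq_nonneg t) hw0
  have q1 : t ^ 2 * w * (2 * s + d) ≤ 3 := by
    have : 2 * s + d ≤ 1.9001 := by linarith
    nlinarith
  have q2 : (2 * s + d) * ((s + d) ^ 2 + s ^ 2) ≤ 4 := by
    have a1 : s ^ 2 ≤ 0.91 := by nlinarith
    have a2 : (s + d) ^ 2 ≤ 0.91 := by nlinarith
    have a3 : 0 ≤ (s + d) ^ 2 + s ^ 2 := by positivity
    have : 2 * s + d ≤ 1.9001 := by linarith
    nlinarith
  have q3 : 0 ≤ t ^ 3 := by positivity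
  have key : (-(2 * s + d) / 2 + t ^ 2 * w * (2 * s + d) / 4 +
      (2 * s + d) * ((s + d) ^ 2 + s ^ 2) / 24 + 0.001 * t ^ 3) ≤ 5 := by linarith
  have key2 : (-(2 * s + d) / 2 + t ^ 2 * w * (2 * s + d) / 4 +
      (2 * s + d) * ((s + d) ^ 2 + s ^ 2) / 24) ≤ 5 := by linarith
  constructor
  · have h5 : KJ t (s + d) w - KJ t s w = d * (-(2 * s + d) / 2 + t ^ 2 * w * (2 * s + d) / 4 +
      (2 * s + d) * ((s + d) ^ 2 + s ^ 2) / 24 + 0.001 * t ^ 3) := by unfold KJ; ring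
    nlinarith
  · have h5 : KN t (s + d) w - KN t s w = d * (-(2 * s + d) / 2 + t ^ 2 * w * (2 * s + d) / 4 +
      (2 * s + d) * ((s + d) ^ 2 + s ^ 2) / 24) := by unfold KN; ring
    nlinarith

theorem shift (t w c : ℝ) (h2 : 11 / 5 ≤ t) (h3 : t ≤ 18 / 5) (hw0 : 0 ≤ w) (hw : w ≤ 0.12) :
    (KJ t (3.141592 - t) w ≤ c - 0.00001 → KJ t (Real.pi - t) w ≤ c) ∧
    (KN t (3.141592 - t) w ≤ c - 0.00001 → KN t (Real.pi - t) w ≤ c) := by
  have p1 := Real.pi_gt_d6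
  have p2 := Real.pi_lt_d6
  have h := shiftaux t w (3.141592 - t) h2 h3 hw0 hw (by linarith) (by linarith)
    (Real.pi - 3.141592) (by linarith) (by linarith)
  have e : 3.141592 - t + (Real.pi - 3.141592) = Real.pi - t := by ring
  rw [e] at h
  exact ⟨fun k => by linarith [h.1], fun k => by linarith [h.2]⟩

theorem interpJ (t v θ a b w0 w1 : ℝ) (h2 : 11 / 5 ≤ t) (h3 : t ≤ 18 / 5) (hv1 : v ≤ 0.11074)
    (hab : a < b) (ha : a ≤ θ) (hb : θ ≤ b)
    (k0 : KJ t (Real.pi - t) w0 ≤ 1.1835 - 2.2 * a) (k1 : KJ t (Real.pi - t) w1 ≤ 1.1835 - 2.2 * b)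
    (hv : w0 * (b - θ) + w1 * (θ - a) ≤ v * (b - a)) :
    KJ t (Real.pi - t) v ≤ 1.1835 - 2.2 * θ := by
  have hba : 0 < b - a := by linarith
  obtain ⟨l, hl, h0, h1⟩ : ∃ l, θ = a + l * (b - a) ∧ 0 ≤ l ∧ l ≤ 1 :=
    ⟨(θ - a) / (b - a), by field_simp; ring, div_nonneg (by linarith) hba.le,
      (div_le_one hba).2 (by linarith)⟩
  have hw : (1 - l) * w0 + l * w1 ≤ v := by
    have : ((1 - l) * w0 + l * w1) * (b - a) ≤ v * (b - a) := by
      refine le_trans (le_of_eq ?_) hv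
      rw [hl]; ring
    exact le_of_mul_le_mul_right this hba
  refine (monoJ t v _ h2 h3 hv1 hw).trans ?_
  have e : (1 - l) * KJ t (Real.pi - t) w0 + l * KJ t (Real.pi - t) w1 -
      KJ t (Real.pi - t) ((1 - l) * w0 + l * w1) = 2.6 / 24 * t ^ 4 * (l * (1 - l) * (w1 - w0) ^ 2) := by
    unfold KJ; ring
  have e2 : 0 ≤ 2.6 / 24 * t ^ 4 * (l * (1 - l) * (w1 - w0) ^ 2) := by
    have : 0 ≤ 1 - l := by linarith
    positivity
  have e3 := mul_le_mul_of_nonneg_left k0 (by linarith : 0 ≤ 1 - l)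
  have e4 := mul_le_mul_of_nonneg_left k1 h0
  rw [hl]
  linarith

theorem interpN (t v θ a b w0 w1 : ℝ) (h2 : 11 / 5 ≤ t) (h3 : t ≤ 18 / 5) (hv1 : v ≤ 0.11074)
    (hab : a < b) (ha : a ≤ θ) (hb : θ ≤ b)
    (k0 : KN t (Real.pi - t) w0 ≤ 1.1835 - 2.2 * a) (k1 : KN t (Real.pi - t) w1 ≤ 1.1835 - 2.2 * b)
    (hv : w0 * (b - θ) + w1 * (θ - a) ≤ v * (b - a)) :
    KN t (Real.pi - t) v ≤ 1.1835 - 2.2 * θ := by
  have hba : 0 < b - a := by linarith
  obtain ⟨l, hl, h0, h1⟩ : ∃ l, θ = a + l * (b - a) ∧ 0 ≤ l ∧ l ≤ 1 :=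
    ⟨(θ - a) / (b - a), by field_simp; ring, div_nonneg (by linarith) hba.le,
      (div_le_one hba).2 (by linarith)⟩
  have hw : (1 - l) * w0 + l * w1 ≤ v := by
    have : ((1 - l) * w0 + l * w1) * (b - a) ≤ v * (b - a) := by
      refine le_trans (le_of_eq ?_) hv
      rw [hl]; ring
    exact le_of_mul_le_mul_right this hba
  refine (monoN t v _ h2 h3 hv1 hw).trans ?_
  have e : (1 - l) * KN t (Real.pi - t) w0 + l * KN t (Real.pi - t) w1 -
      KN t (Real.pi - t) ((1 - l) * w0 + l * w1) = 2.6 / 24 * t ^ 4 * (l * (1 - l) * (w1 - w0) ^ 2) := by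
    unfold KN; ring
  have e2 : 0 ≤ 2.6 / 24 * t ^ 4 * (l * (1 - l) * (w1 - w0) ^ 2) := by
    have : 0 ≤ 1 - l := by linarith
    positivity
  have e3 := mul_le_mul_of_nonneg_left k0 (by linarith : 0 ≤ 1 - l)
  have e4 := mul_le_mul_of_nonneg_left k1 h0
  rw [hl]
  linarith


theorem boundJ (t v θ : ℝ) (h2 : 11 / 5 ≤ t) (h3 : t ≤ 3927 / 1250) (hv1 : v ≤ 0.11074)
    (hv0 : 0.01207 - 0.1566 * θ + 2.2033 * θ ^ 2 ≤ v) (ha : 1 / 6 ≤ θ) (hb : θ ≤ 1 / 4) :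
    KJ t (Real.pi - t) v ≤ 1.1835 - 2.2 * θ := by
  have h3b : t ≤ 18 / 5 := by linarith
  rcases le_total θ (17 / 96) with hhi1 | hlo1
  · exact interpJ t v θ (1 / 6) (17 / 96) (4711 / 100000) (5337 / 100000) h2 h3b hv1 (by norm_num) ha hhi1
      ((shift t _ _ h2 h3b (by norm_num) (by norm_num)).1 (kj0 t h2 h3))
      ((shift t _ _ h2 h3b (by norm_num) (by norm_num)).1 (kj1 t h2 h3))
      (by linarith [sq_nonneg (θ - 11 / 64)])
  rcases le_total θ (3 / 16) with hhi2 | hlo2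
  · exact interpJ t v θ (17 / 96) (3 / 16) (5337 / 100000) (601 / 10000) h2 h3b hv1 (by norm_num) hlo1 hhi2
      ((shift t _ _ h2 h3b (by norm_num) (by norm_num)).1 (kj1 t h2 h3))
      ((shift t _ _ h2 h3b (by norm_num) (by norm_num)).1 (kj2 t h2 h3))
      (by linarith [sq_nonneg (θ - 35 / 192)])
  rcases le_total θ (19 / 96) with hhi3 | hlo3
  · exact interpJ t v θ (3 / 16) (19 / 96) (601 / 10000) (1683 / 25000) h2 h3b hv1 (by norm_num) hlo2 hhi3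
      ((shift t _ _ h2 h3b (by norm_num) (by norm_num)).1 (kj2 t h2 h3))
      ((shift t _ _ h2 h3b (by norm_num) (by norm_num)).1 (kj3 t h2 h3))
      (by linarith [sq_nonneg (θ - 37 / 192)])
  rcases le_total θ (5 / 24) with hhi4 | hlo4
  · exact interpJ t v θ (19 / 96) (5 / 24) (1683 / 25000) (7501 / 100000) h2 h3b hv1 (by norm_num) hlo3 hhi4
      ((shift t _ _ h2 h3b (by norm_num) (by norm_num)).1 (kj3 t h2 h3))
      ((shift t _ _ h2 h3b (by norm_num) (by norm_num)).1 (kj4 t h2 h3))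
      (by linarith [sq_nonneg (θ - 13 / 64)])
  rcases le_total θ (7 / 32) with hhi5 | hlo5
  · exact interpJ t v θ (5 / 24) (7 / 32) (7501 / 100000) (4159 / 50000) h2 h3b hv1 (by norm_num) hlo4 hhi5
      ((shift t _ _ h2 h3b (by norm_num) (by norm_num)).1 (kj4 t h2 h3))
      ((shift t _ _ h2 h3b (by norm_num) (by norm_num)).1 (kj5 t h2 h3))
      (by linarith [sq_nonneg (θ - 41 / 192)])
  rcases le_total θ (11 / 48) with hhi6 | hlo6
  · exact interpJ t v θ (7 / 32) (11 / 48) (4159 / 50000) (9183 / 100000) h2 h3b hv1 (by norm_num) hlo5 hhi6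
      ((shift t _ _ h2 h3b (by norm_num) (by norm_num)).1 (kj5 t h2 h3))
      ((shift t _ _ h2 h3b (by norm_num) (by norm_num)).1 (kj6 t h2 h3))
      (by linarith [sq_nonneg (θ - 43 / 192)])
  rcases le_total θ (23 / 96) with hhi7 | hlo7
  · exact interpJ t v θ (11 / 48) (23 / 96) (9183 / 100000) (631 / 6250) h2 h3b hv1 (by norm_num) hlo6 hhi7
      ((shift t _ _ h2 h3b (by norm_num) (by norm_num)).1 (kj6 t h2 h3))
      ((shift t _ _ h2 h3b (by norm_num) (by norm_num)).1 (kj7 t h2 h3))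
      (by linarith [sq_nonneg (θ - 15 / 64)])
  exact interpJ t v θ (23 / 96) (1 / 4) (631 / 6250) (691 / 6250) h2 h3b hv1 (by norm_num) hlo7 hb
      ((shift t _ _ h2 h3b (by norm_num) (by norm_num)).1 (kj7 t h2 h3))
      ((shift t _ _ h2 h3b (by norm_num) (by norm_num)).1 (kj8 t h2 h3))
      (by linarith [sq_nonneg (θ - 47 / 192)])


theorem boundN (t v θ : ℝ) (h2 : 11 / 5 ≤ t) (h2b : 6283 / 2000 ≤ t) (h3 : t ≤ 18 / 5) (hv1 : v ≤ 0.11074)
    (hv0 : 0.01207 - 0.1566 * θ + 2.2033 * θ ^ 2 ≤ v) (ha : 1 / 6 ≤ θ) (hb : θ ≤ 1 / 4) :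
    KN t (Real.pi - t) v ≤ 1.1835 - 2.2 * θ := by
  have h3b : t ≤ 18 / 5 := by linarith
  rcases le_total θ (17 / 96) with hhi1 | hlo1
  · exact interpN t v θ (1 / 6) (17 / 96) (4711 / 100000) (5337 / 100000) h2 h3b hv1 (by norm_num) ha hhi1
      ((shift t _ _ h2 h3b (by norm_num) (by norm_num)).2 (kn0 t h2b h3))
      ((shift t _ _ h2 h3b (by norm_num) (by norm_num)).2 (kn1 t h2b h3))
      (by linarith [sq_nonneg (θ - 11 / 64)])
  rcases le_total θ (3 / 16) with hhi2 | hlo2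
  · exact interpN t v θ (17 / 96) (3 / 16) (5337 / 100000) (601 / 10000) h2 h3b hv1 (by norm_num) hlo1 hhi2
      ((shift t _ _ h2 h3b (by norm_num) (by norm_num)).2 (kn1 t h2b h3))
      ((shift t _ _ h2 h3b (by norm_num) (by norm_num)).2 (kn2 t h2b h3))
      (by linarith [sq_nonneg (θ - 35 / 192)])
  rcases le_total θ (19 / 96) with hhi3 | hlo3
  · exact interpN t v θ (3 / 16) (19 / 96) (601 / 10000) (1683 / 25000) h2 h3b hv1 (by norm_num) hlo2 hhi3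
      ((shift t _ _ h2 h3b (by norm_num) (by norm_num)).2 (kn2 t h2b h3))
      ((shift t _ _ h2 h3b (by norm_num) (by norm_num)).2 (kn3 t h2b h3))
      (by linarith [sq_nonneg (θ - 37 / 192)])
  rcases le_total θ (5 / 24) with hhi4 | hlo4
  · exact interpN t v θ (19 / 96) (5 / 24) (1683 / 25000) (7501 / 100000) h2 h3b hv1 (by norm_num) hlo3 hhi4
      ((shift t _ _ h2 h3b (by norm_num) (by norm_num)).2 (kn3 t h2b h3))
      ((shift t _ _ h2 h3b (by norm_num) (by norm_num)).2 (kn4 t h2b h3))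
      (by linarith [sq_nonneg (θ - 13 / 64)])
  rcases le_total θ (7 / 32) with hhi5 | hlo5
  · exact interpN t v θ (5 / 24) (7 / 32) (7501 / 100000) (4159 / 50000) h2 h3b hv1 (by norm_num) hlo4 hhi5
      ((shift t _ _ h2 h3b (by norm_num) (by norm_num)).2 (kn4 t h2b h3))
      ((shift t _ _ h2 h3b (by norm_num) (by norm_num)).2 (kn5 t h2b h3))
      (by linarith [sq_nonneg (θ - 41 / 192)])
  rcases le_total θ (11 / 48) with hhi6 | hlo6
  · exact interpN t v θ (7 / 32) (11 / 48) (4159 / 50000) (9183 / 100000) h2 h3b hv1 (by norm_num) hlo5 hhi6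
      ((shift t _ _ h2 h3b (by norm_num) (by norm_num)).2 (kn5 t h2b h3))
      ((shift t _ _ h2 h3b (by norm_num) (by norm_num)).2 (kn6 t h2b h3))
      (by linarith [sq_nonneg (θ - 43 / 192)])
  rcases le_total θ (23 / 96) with hhi7 | hlo7
  · exact interpN t v θ (11 / 48) (23 / 96) (9183 / 100000) (631 / 6250) h2 h3b hv1 (by norm_num) hlo6 hhi7
      ((shift t _ _ h2 h3b (by norm_num) (by norm_num)).2 (kn6 t h2b h3))
      ((shift t _ _ h2 h3b (by norm_num) (by norm_num)).2 (kn7 t h2b h3))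
      (by linarith [sq_nonneg (θ - 15 / 64)])
  exact interpN t v θ (23 / 96) (1 / 4) (631 / 6250) (691 / 6250) h2 h3b hv1 (by norm_num) hlo7 hb
      ((shift t _ _ h2 h3b (by norm_num) (by norm_num)).2 (kn7 t h2b h3))
      ((shift t _ _ h2 h3b (by norm_num) (by norm_num)).2 (kn8 t h2b h3))
      (by linarith [sq_nonneg (θ - 47 / 192)])


end Pool.Agent.Helper6.Pq
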