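import Pool.Agent.Helper53.Pq.Goals

namespace Pool.Agent.Helper6.Pq

open MeasureTheory Set
open Pool.Agent.Helper53.Pq
open Pool.Agent.Helper28.NO (Lf Ok IsLaw ph hm mu muZ)

noncomputable def KN (t s w : ℝ) : ℝ :=
  1 - (t ^ 2 * w + s ^ 2) / 2 + (t ^ 4 * (2.6 * w ^ 2 + 0.0035) + 6 * t ^ 2 * s ^ 2 * w + s ^ 4) / 24

noncomputable def KJ (t s w : ℝ) : ℝ :=
  1 - (t ^ 2 * w + s ^ 2) / 2 + (t ^ 4 * (2.6 * w ^ 2 + 0.0035) + 6 * t ^ 2 * s ^ 2 * w + s ^ 4) / 24 +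
    0.001 * t ^ 3 * s

theorem kj0 (t : ℝ) (h0 : 11 / 5 ≤ t) (h1 : t ≤ 3927 / 1250) :
    KJ t (3.141592 - t) (4711 / 100000) ≤ 1.1835 - 2.2 * (1 / 6) - 0.00001 := by
  unfold KJ
  rcases le_total t (6677 / 2500) with h2 | h2
  · have ha : 0 ≤ t - 11 / 5 := by linarith
    have hb : 0 ≤ 6677 / 2500 - t := by linarith
    linarith [mul_nonneg (pow_nonneg ha 0) (pow_nonneg hb 4), mul_nonneg (pow_nonneg ha 1) (pow_nonneg hb 3), mul_nonneg (pow_nonneg ha 2) (pow_nonneg hb 2), mul_nonneg (pow_nonneg ha 3) (pow_nonneg hb 1), mul_nonneg (pow_nonneg ha 4) (pow_nonneg hb 0)]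
  rcases le_total t (14531 / 5000) with h2 | h2
  · have ha : 0 ≤ t - 6677 / 2500 := by linarith
    have hb : 0 ≤ 14531 / 5000 - t := by linarith
    linarith [mul_nonneg (pow_nonneg ha 0) (pow_nonneg hb 4), mul_nonneg (pow_nonneg ha 1) (pow_nonneg hb 3), mul_nonneg (pow_nonneg ha 2) (pow_nonneg hb 2), mul_nonneg (pow_nonneg ha 3) (pow_nonneg hb 1), mul_nonneg (pow_nonneg ha 4) (pow_nonneg hb 0)]
  have ha : 0 ≤ t - 14531 / 5000 := by linarith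
  have hb : 0 ≤ 3927 / 1250 - t := by linarith
  linarith [mul_nonneg (pow_nonneg ha 0) (pow_nonneg hb 4), mul_nonneg (pow_nonneg ha 1) (pow_nonneg hb 3), mul_nonneg (pow_nonneg ha 2) (pow_nonneg hb 2), mul_nonneg (pow_nonneg ha 3) (pow_nonneg hb 1), mul_nonneg (pow_nonneg ha 4) (pow_nonneg hb 0)]

theorem kn0 (t : ℝ) (h0 : 6283 / 2000 ≤ t) (h1 : t ≤ 18 / 5) :
    KN t (3.141592 - t) (4711 / 100000) ≤ 1.1835 - 2.2 * (1 / 6) - 0.00001 := by
  unfold KN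
  have ha : 0 ≤ t - 6283 / 2000 := by linarith
  have hb : 0 ≤ 18 / 5 - t := by linarith
  linarith [mul_nonneg (pow_nonneg ha 0) (pow_nonneg hb 4), mul_nonneg (pow_nonneg ha 1) (pow_nonneg hb 3), mul_nonneg (pow_nonneg ha 2) (pow_nonneg hb 2), mul_nonneg (pow_nonneg ha 3) (pow_nonneg hb 1), mul_nonneg (pow_nonneg ha 4) (pow_nonneg hb 0)]

theorem kj1 (t : ℝ) (h0 : 11 / 5 ≤ t) (h1 : t ≤ 3927 / 1250) :
    KJ t (3.141592 - t) (5337 / 100000) ≤ 1.1835 - 2.2 * (17 / 96) - 0.00001 := by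
  unfold KJ
  rcases le_total t (6677 / 2500) with h2 | h2
  · have ha : 0 ≤ t - 11 / 5 := by linarith
    have hb : 0 ≤ 6677 / 2500 - t := by linarith
    linarith [mul_nonneg (pow_nonneg ha 0) (pow_nonneg hb 4), mul_nonneg (pow_nonneg ha 1) (pow_nonneg hb 3), mul_nonneg (pow_nonneg ha 2) (pow_nonneg hb 2), mul_nonneg (pow_nonneg ha 3) (pow_nonneg hb 1), mul_nonneg (pow_nonneg ha 4) (pow_nonneg hb 0)]
  rcases le_total t (14531 / 5000) with h2 | h2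
  · have ha : 0 ≤ t - 6677 / 2500 := by linarith
    have hb : 0 ≤ 14531 / 5000 - t := by linarith
    linarith [mul_nonneg (pow_nonneg ha 0) (pow_nonneg hb 4), mul_nonneg (pow_nonneg ha 1) (pow_nonneg hb 3), mul_nonneg (pow_nonneg ha 2) (pow_nonneg hb 2), mul_nonneg (pow_nonneg ha 3) (pow_nonneg hb 1), mul_nonneg (pow_nonneg ha 4) (pow_nonneg hb 0)]
  rcases le_total t (30239 / 10000) with h2 | h2
  · have ha : 0 ≤ t - 14531 / 5000 := by linarith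
    have hb : 0 ≤ 30239 / 10000 - t := by linarith
    linarith [mul_nonneg (pow_nonneg ha 0) (pow_nonneg hb 4), mul_nonneg (pow_nonneg ha 1) (pow_nonneg hb 3), mul_nonneg (pow_nonneg ha 2) (pow_nonneg hb 2), mul_nonneg (pow_nonneg ha 3) (pow_nonneg hb 1), mul_nonneg (pow_nonneg ha 4) (pow_nonneg hb 0)]
  have ha : 0 ≤ t - 30239 / 10000 := by linarith
  have hb : 0 ≤ 3927 / 1250 - t := by linarith
  linarith [mul_nonneg (pow_nonneg ha 0) (pow_nonneg hb 4), mul_nonneg (pow_nonneg ha 1) (pow_nonneg hb 3), mul_nonneg (pow_nonneg ha 2) (pow_nonneg hb 2), mul_nonneg (pow_nonneg ha 3) (pow_nonneg hb 1), mul_nonneg (pow_nonneg ha 4) (pow_nonneg hb 0)]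

theorem kn1 (t : ℝ) (h0 : 6283 / 2000 ≤ t) (h1 : t ≤ 18 / 5) :
    KN t (3.141592 - t) (5337 / 100000) ≤ 1.1835 - 2.2 * (17 / 96) - 0.00001 := by
  unfold KN
  have ha : 0 ≤ t - 6283 / 2000 := by linarith
  have hb : 0 ≤ 18 / 5 - t := by linarith
  linarith [mul_nonneg (pow_nonneg ha 0) (pow_nonneg hb 4), mul_nonneg (pow_nonneg ha 1) (pow_nonneg hb 3), mul_nonneg (pow_nonneg ha 2) (pow_nonneg hb 2), mul_nonneg (pow_nonneg ha 3) (pow_nonneg hb 1), mul_nonneg (pow_nonneg ha 4) (pow_nonneg hb 0)]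

theorem kj2 (t : ℝ) (h0 : 11 / 5 ≤ t) (h1 : t ≤ 3927 / 1250) :
    KJ t (3.141592 - t) (601 / 10000) ≤ 1.1835 - 2.2 * (3 / 16) - 0.00001 := by
  unfold KJ
  rcases le_total t (6677 / 2500) with h2 | h2
  · have ha : 0 ≤ t - 11 / 5 := by linarith
    have hb : 0 ≤ 6677 / 2500 - t := by linarith
    linarith [mul_nonneg (pow_nonneg ha 0) (pow_nonneg hb 4), mul_nonneg (pow_nonneg ha 1) (pow_nonneg hb 3), mul_nonneg (pow_nonneg ha 2) (pow_nonneg hb 2), mul_nonneg (pow_nonneg ha 3) (pow_nonneg hb 1), mul_nonneg (pow_nonneg ha 4) (pow_nonneg hb 0)]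
  rcases le_total t (14531 / 5000) with h2 | h2
  · have ha : 0 ≤ t - 6677 / 2500 := by linarith
    have hb : 0 ≤ 14531 / 5000 - t := by linarith
    linarith [mul_nonneg (pow_nonneg ha 0) (pow_nonneg hb 4), mul_nonneg (pow_nonneg ha 1) (pow_nonneg hb 3), mul_nonneg (pow_nonneg ha 2) (pow_nonneg hb 2), mul_nonneg (pow_nonneg ha 3) (pow_nonneg hb 1), mul_nonneg (pow_nonneg ha 4) (pow_nonneg hb 0)]
  rcases le_total t (30239 / 10000) with h2 | h2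
  · have ha : 0 ≤ t - 14531 / 5000 := by linarith
    have hb : 0 ≤ 30239 / 10000 - t := by linarith
    linarith [mul_nonneg (pow_nonneg ha 0) (pow_nonneg hb 4), mul_nonneg (pow_nonneg ha 1) (pow_nonneg hb 3), mul_nonneg (pow_nonneg ha 2) (pow_nonneg hb 2), mul_nonneg (pow_nonneg ha 3) (pow_nonneg hb 1), mul_nonneg (pow_nonneg ha 4) (pow_nonneg hb 0)]
  have ha : 0 ≤ t - 30239 / 10000 := by linarith
  have hb : 0 ≤ 3927 / 1250 - t := by linarith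
  linarith [mul_nonneg (pow_nonneg ha 0) (pow_nonneg hb 4), mul_nonneg (pow_nonneg ha 1) (pow_nonneg hb 3), mul_nonneg (pow_nonneg ha 2) (pow_nonneg hb 2), mul_nonneg (pow_nonneg ha 3) (pow_nonneg hb 1), mul_nonneg (pow_nonneg ha 4) (pow_nonneg hb 0)]

theorem kn2 (t : ℝ) (h0 : 6283 / 2000 ≤ t) (h1 : t ≤ 18 / 5) :
    KN t (3.141592 - t) (601 / 10000) ≤ 1.1835 - 2.2 * (3 / 16) - 0.00001 := by
  unfold KN
  have ha : 0 ≤ t - 6283 / 2000 := by linarith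
  have hb : 0 ≤ 18 / 5 - t := by linarith
  linarith [mul_nonneg (pow_nonneg ha 0) (pow_nonneg hb 4), mul_nonneg (pow_nonneg ha 1) (pow_nonneg hb 3), mul_nonneg (pow_nonneg ha 2) (pow_nonneg hb 2), mul_nonneg (pow_nonneg ha 3) (pow_nonneg hb 1), mul_nonneg (pow_nonneg ha 4) (pow_nonneg hb 0)]

theorem kj3 (t : ℝ) (h0 : 11 / 5 ≤ t) (h1 : t ≤ 3927 / 1250) :
    KJ t (3.141592 - t) (1683 / 25000) ≤ 1.1835 - 2.2 * (19 / 96) - 0.00001 := by
  unfold KJ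
  rcases le_total t (6677 / 2500) with h2 | h2
  · have ha : 0 ≤ t - 11 / 5 := by linarith
    have hb : 0 ≤ 6677 / 2500 - t := by linarith
    linarith [mul_nonneg (pow_nonneg ha 0) (pow_nonneg hb 4), mul_nonneg (pow_nonneg ha 1) (pow_nonneg hb 3), mul_nonneg (pow_nonneg ha 2) (pow_nonneg hb 2), mul_nonneg (pow_nonneg ha 3) (pow_nonneg hb 1), mul_nonneg (pow_nonneg ha 4) (pow_nonneg hb 0)]
  rcases le_total t (14531 / 5000) with h2 | h2
  · have ha : 0 ≤ t - 6677 / 2500 := by linarith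
    have hb : 0 ≤ 14531 / 5000 - t := by linarith
    linarith [mul_nonneg (pow_nonneg ha 0) (pow_nonneg hb 4), mul_nonneg (pow_nonneg ha 1) (pow_nonneg hb 3), mul_nonneg (pow_nonneg ha 2) (pow_nonneg hb 2), mul_nonneg (pow_nonneg ha 3) (pow_nonneg hb 1), mul_nonneg (pow_nonneg ha 4) (pow_nonneg hb 0)]
  rcases le_total t (30239 / 10000) with h2 | h2
  · have ha : 0 ≤ t - 14531 / 5000 := by linarith
    have hb : 0 ≤ 30239 / 10000 - t := by linarith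
    linarith [mul_nonneg (pow_nonneg ha 0) (pow_nonneg hb 4), mul_nonneg (pow_nonneg ha 1) (pow_nonneg hb 3), mul_nonneg (pow_nonneg ha 2) (pow_nonneg hb 2), mul_nonneg (pow_nonneg ha 3) (pow_nonneg hb 1), mul_nonneg (pow_nonneg ha 4) (pow_nonneg hb 0)]
  have ha : 0 ≤ t - 30239 / 10000 := by linarith
  have hb : 0 ≤ 3927 / 1250 - t := by linarith
  linarith [mul_nonneg (pow_nonneg ha 0) (pow_nonneg hb 4), mul_nonneg (pow_nonneg ha 1) (pow_nonneg hb 3), mul_nonneg (pow_nonneg ha 2) (pow_nonneg hb 2), mul_nonneg (pow_nonneg ha 3) (pow_nonneg hb 1), mul_nonneg (pow_nonneg ha 4) (pow_nonneg hb 0)]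

theorem kn3 (t : ℝ) (h0 : 6283 / 2000 ≤ t) (h1 : t ≤ 18 / 5) :
    KN t (3.141592 - t) (1683 / 25000) ≤ 1.1835 - 2.2 * (19 / 96) - 0.00001 := by
  unfold KN
  have ha : 0 ≤ t - 6283 / 2000 := by linarith
  have hb : 0 ≤ 18 / 5 - t := by linarith
  linarith [mul_nonneg (pow_nonneg ha 0) (pow_nonneg hb 4), mul_nonneg (pow_nonneg ha 1) (pow_nonneg hb 3), mul_nonneg (pow_nonneg ha 2) (pow_nonneg hb 2), mul_nonneg (pow_nonneg ha 3) (pow_nonneg hb 1), mul_nonneg (pow_nonneg ha 4) (pow_nonneg hb 0)]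

theorem kj4 (t : ℝ) (h0 : 11 / 5 ≤ t) (h1 : t ≤ 3927 / 1250) :
    KJ t (3.141592 - t) (7501 / 100000) ≤ 1.1835 - 2.2 * (5 / 24) - 0.00001 := by
  unfold KJ
  rcases le_total t (6677 / 2500) with h2 | h2
  · have ha : 0 ≤ t - 11 / 5 := by linarith
    have hb : 0 ≤ 6677 / 2500 - t := by linarith
    linarith [mul_nonneg (pow_nonneg ha 0) (pow_nonneg hb 4), mul_nonneg (pow_nonneg ha 1) (pow_nonneg hb 3), mul_nonneg (pow_nonneg ha 2) (pow_nonneg hb 2), mul_nonneg (pow_nonneg ha 3) (pow_nonneg hb 1), mul_nonneg (pow_nonneg ha 4) (pow_nonneg hb 0)]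
  rcases le_total t (14531 / 5000) with h2 | h2
  · have ha : 0 ≤ t - 6677 / 2500 := by linarith
    have hb : 0 ≤ 14531 / 5000 - t := by linarith
    linarith [mul_nonneg (pow_nonneg ha 0) (pow_nonneg hb 4), mul_nonneg (pow_nonneg ha 1) (pow_nonneg hb 3), mul_nonneg (pow_nonneg ha 2) (pow_nonneg hb 2), mul_nonneg (pow_nonneg ha 3) (pow_nonneg hb 1), mul_nonneg (pow_nonneg ha 4) (pow_nonneg hb 0)]
  have ha : 0 ≤ t - 14531 / 5000 := by linarith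
  have hb : 0 ≤ 3927 / 1250 - t := by linarith
  linarith [mul_nonneg (pow_nonneg ha 0) (pow_nonneg hb 4), mul_nonneg (pow_nonneg ha 1) (pow_nonneg hb 3), mul_nonneg (pow_nonneg ha 2) (pow_nonneg hb 2), mul_nonneg (pow_nonneg ha 3) (pow_nonneg hb 1), mul_nonneg (pow_nonneg ha 4) (pow_nonneg hb 0)]

theorem kn4 (t : ℝ) (h0 : 6283 / 2000 ≤ t) (h1 : t ≤ 18 / 5) :
    KN t (3.141592 - t) (7501 / 100000) ≤ 1.1835 - 2.2 * (5 / 24) - 0.00001 := by
  unfold KN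
  have ha : 0 ≤ t - 6283 / 2000 := by linarith
  have hb : 0 ≤ 18 / 5 - t := by linarith
  linarith [mul_nonneg (pow_nonneg ha 0) (pow_nonneg hb 4), mul_nonneg (pow_nonneg ha 1) (pow_nonneg hb 3), mul_nonneg (pow_nonneg ha 2) (pow_nonneg hb 2), mul_nonneg (pow_nonneg ha 3) (pow_nonneg hb 1), mul_nonneg (pow_nonneg ha 4) (pow_nonneg hb 0)]

theorem kj5 (t : ℝ) (h0 : 11 / 5 ≤ t) (h1 : t ≤ 3927 / 1250) :
    KJ t (3.141592 - t) (4159 / 50000) ≤ 1.1835 - 2.2 * (7 / 32) - 0.00001 := by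
  unfold KJ
  rcases le_total t (6677 / 2500) with h2 | h2
  · have ha : 0 ≤ t - 11 / 5 := by linarith
    have hb : 0 ≤ 6677 / 2500 - t := by linarith
    linarith [mul_nonneg (pow_nonneg ha 0) (pow_nonneg hb 4), mul_nonneg (pow_nonneg ha 1) (pow_nonneg hb 3), mul_nonneg (pow_nonneg ha 2) (pow_nonneg hb 2), mul_nonneg (pow_nonneg ha 3) (pow_nonneg hb 1), mul_nonneg (pow_nonneg ha 4) (pow_nonneg hb 0)]
  rcases le_total t (14531 / 5000) with h2 | h2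
  · have ha : 0 ≤ t - 6677 / 2500 := by linarith
    have hb : 0 ≤ 14531 / 5000 - t := by linarith
    linarith [mul_nonneg (pow_nonneg ha 0) (pow_nonneg hb 4), mul_nonneg (pow_nonneg ha 1) (pow_nonneg hb 3), mul_nonneg (pow_nonneg ha 2) (pow_nonneg hb 2), mul_nonneg (pow_nonneg ha 3) (pow_nonneg hb 1), mul_nonneg (pow_nonneg ha 4) (pow_nonneg hb 0)]
  have ha : 0 ≤ t - 14531 / 5000 := by linarith
  have hb : 0 ≤ 3927 / 1250 - t := by linarith
  linarith [mul_nonneg (pow_nonneg ha 0) (pow_nonneg hb 4), mul_nonneg (pow_nonneg ha 1) (pow_nonneg hb 3), mul_nonneg (pow_nonneg ha 2) (pow_nonneg hb 2), mul_nonneg (pow_nonneg ha 3) (pow_nonneg hb 1), mul_nonneg (pow_nonneg ha 4) (pow_nonneg hb 0)]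

theorem kn5 (t : ℝ) (h0 : 6283 / 2000 ≤ t) (h1 : t ≤ 18 / 5) :
    KN t (3.141592 - t) (4159 / 50000) ≤ 1.1835 - 2.2 * (7 / 32) - 0.00001 := by
  unfold KN
  have ha : 0 ≤ t - 6283 / 2000 := by linarith
  have hb : 0 ≤ 18 / 5 - t := by linarith
  linarith [mul_nonneg (pow_nonneg ha 0) (pow_nonneg hb 4), mul_nonneg (pow_nonneg ha 1) (pow_nonneg hb 3), mul_nonneg (pow_nonneg ha 2) (pow_nonneg hb 2), mul_nonneg (pow_nonneg ha 3) (pow_nonneg hb 1), mul_nonneg (pow_nonneg ha 4) (pow_nonneg hb 0)]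

theorem kj6 (t : ℝ) (h0 : 11 / 5 ≤ t) (h1 : t ≤ 3927 / 1250) :
    KJ t (3.141592 - t) (9183 / 100000) ≤ 1.1835 - 2.2 * (11 / 48) - 0.00001 := by
  unfold KJ
  rcases le_total t (6677 / 2500) with h2 | h2
  · have ha : 0 ≤ t - 11 / 5 := by linarith
    have hb : 0 ≤ 6677 / 2500 - t := by linarith
    linarith [mul_nonneg (pow_nonneg ha 0) (pow_nonneg hb 4), mul_nonneg (pow_nonneg ha 1) (pow_nonneg hb 3), mul_nonneg (pow_nonneg ha 2) (pow_nonneg hb 2), mul_nonneg (pow_nonneg ha 3) (pow_nonneg hb 1), mul_nonneg (pow_nonneg ha 4) (pow_nonneg hb 0)]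
  rcases le_total t (14531 / 5000) with h2 | h2
  · have ha : 0 ≤ t - 6677 / 2500 := by linarith
    have hb : 0 ≤ 14531 / 5000 - t := by linarith
    linarith [mul_nonneg (pow_nonneg ha 0) (pow_nonneg hb 4), mul_nonneg (pow_nonneg ha 1) (pow_nonneg hb 3), mul_nonneg (pow_nonneg ha 2) (pow_nonneg hb 2), mul_nonneg (pow_nonneg ha 3) (pow_nonneg hb 1), mul_nonneg (pow_nonneg ha 4) (pow_nonneg hb 0)]
  have ha : 0 ≤ t - 14531 / 5000 := by linarith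
  have hb : 0 ≤ 3927 / 1250 - t := by linarith
  linarith [mul_nonneg (pow_nonneg ha 0) (pow_nonneg hb 4), mul_nonneg (pow_nonneg ha 1) (pow_nonneg hb 3), mul_nonneg (pow_nonneg ha 2) (pow_nonneg hb 2), mul_nonneg (pow_nonneg ha 3) (pow_nonneg hb 1), mul_nonneg (pow_nonneg ha 4) (pow_nonneg hb 0)]

theorem kn6 (t : ℝ) (h0 : 6283 / 2000 ≤ t) (h1 : t ≤ 18 / 5) :
    KN t (3.141592 - t) (9183 / 100000) ≤ 1.1835 - 2.2 * (11 / 48) - 0.00001 := by
  unfold KN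
  have ha : 0 ≤ t - 6283 / 2000 := by linarith
  have hb : 0 ≤ 18 / 5 - t := by linarith
  linarith [mul_nonneg (pow_nonneg ha 0) (pow_nonneg hb 4), mul_nonneg (pow_nonneg ha 1) (pow_nonneg hb 3), mul_nonneg (pow_nonneg ha 2) (pow_nonneg hb 2), mul_nonneg (pow_nonneg ha 3) (pow_nonneg hb 1), mul_nonneg (pow_nonneg ha 4) (pow_nonneg hb 0)]

theorem kj7 (t : ℝ) (h0 : 11 / 5 ≤ t) (h1 : t ≤ 3927 / 1250) :
    KJ t (3.141592 - t) (631 / 6250) ≤ 1.1835 - 2.2 * (23 / 96) - 0.00001 := by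
  unfold KJ
  rcases le_total t (6677 / 2500) with h2 | h2
  · have ha : 0 ≤ t - 11 / 5 := by linarith
    have hb : 0 ≤ 6677 / 2500 - t := by linarith
    linarith [mul_nonneg (pow_nonneg ha 0) (pow_nonneg hb 4), mul_nonneg (pow_nonneg ha 1) (pow_nonneg hb 3), mul_nonneg (pow_nonneg ha 2) (pow_nonneg hb 2), mul_nonneg (pow_nonneg ha 3) (pow_nonneg hb 1), mul_nonneg (pow_nonneg ha 4) (pow_nonneg hb 0)]
  rcases le_total t (14531 / 5000) with h2 | h2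
  · have ha : 0 ≤ t - 6677 / 2500 := by linarith
    have hb : 0 ≤ 14531 / 5000 - t := by linarith
    linarith [mul_nonneg (pow_nonneg ha 0) (pow_nonneg hb 4), mul_nonneg (pow_nonneg ha 1) (pow_nonneg hb 3), mul_nonneg (pow_nonneg ha 2) (pow_nonneg hb 2), mul_nonneg (pow_nonneg ha 3) (pow_nonneg hb 1), mul_nonneg (pow_nonneg ha 4) (pow_nonneg hb 0)]
  have ha : 0 ≤ t - 14531 / 5000 := by linarith
  have hb : 0 ≤ 3927 / 1250 - t := by linarith
  linarith [mul_nonneg (pow_nonneg ha 0) (pow_nonneg hb 4), mul_nonneg (pow_nonneg ha 1) (pow_nonneg hb 3), mul_nonneg (pow_nonneg ha 2) (pow_nonneg hb 2), mul_nonneg (pow_nonneg ha 3) (pow_nonneg hb 1), mul_nonneg (pow_nonneg ha 4) (pow_nonneg hb 0)]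

theorem kn7 (t : ℝ) (h0 : 6283 / 2000 ≤ t) (h1 : t ≤ 18 / 5) :
    KN t (3.141592 - t) (631 / 6250) ≤ 1.1835 - 2.2 * (23 / 96) - 0.00001 := by
  unfold KN
  have ha : 0 ≤ t - 6283 / 2000 := by linarith
  have hb : 0 ≤ 18 / 5 - t := by linarith
  linarith [mul_nonneg (pow_nonneg ha 0) (pow_nonneg hb 4), mul_nonneg (pow_nonneg ha 1) (pow_nonneg hb 3), mul_nonneg (pow_nonneg ha 2) (pow_nonneg hb 2), mul_nonneg (pow_nonneg ha 3) (pow_nonneg hb 1), mul_nonneg (pow_nonneg ha 4) (pow_nonneg hb 0)]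

theorem kj8 (t : ℝ) (h0 : 11 / 5 ≤ t) (h1 : t ≤ 3927 / 1250) :
    KJ t (3.141592 - t) (691 / 6250) ≤ 1.1835 - 2.2 * (1 / 4) - 0.00001 := by
  unfold KJ
  rcases le_total t (6677 / 2500) with h2 | h2
  · have ha : 0 ≤ t - 11 / 5 := by linarith
    have hb : 0 ≤ 6677 / 2500 - t := by linarith
    linarith [mul_nonneg (pow_nonneg ha 0) (pow_nonneg hb 4), mul_nonneg (pow_nonneg ha 1) (pow_nonneg hb 3), mul_nonneg (pow_nonneg ha 2) (pow_nonneg hb 2), mul_nonneg (pow_nonneg ha 3) (pow_nonneg hb 1), mul_nonneg (pow_nonneg ha 4) (pow_nonneg hb 0)]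
  rcases le_total t (5577 / 2000) with h2 | h2
  · have ha : 0 ≤ t - 6677 / 2500 := by linarith
    have hb : 0 ≤ 5577 / 2000 - t := by linarith
    linarith [mul_nonneg (pow_nonneg ha 0) (pow_nonneg hb 4), mul_nonneg (pow_nonneg ha 1) (pow_nonneg hb 3), mul_nonneg (pow_nonneg ha 2) (pow_nonneg hb 2), mul_nonneg (pow_nonneg ha 3) (pow_nonneg hb 1), mul_nonneg (pow_nonneg ha 4) (pow_nonneg hb 0)]
  rcases le_total t (14531 / 5000) with h2 | h2
  · have ha : 0 ≤ t - 5577 / 2000 := by linarith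
    have hb : 0 ≤ 14531 / 5000 - t := by linarith
    linarith [mul_nonneg (pow_nonneg ha 0) (pow_nonneg hb 4), mul_nonneg (pow_nonneg ha 1) (pow_nonneg hb 3), mul_nonneg (pow_nonneg ha 2) (pow_nonneg hb 2), mul_nonneg (pow_nonneg ha 3) (pow_nonneg hb 1), mul_nonneg (pow_nonneg ha 4) (pow_nonneg hb 0)]
  have ha : 0 ≤ t - 14531 / 5000 := by linarith
  have hb : 0 ≤ 3927 / 1250 - t := by linarith
  linarith [mul_nonneg (pow_nonneg ha 0) (pow_nonneg hb 4), mul_nonneg (pow_nonneg ha 1) (pow_nonneg hb 3), mul_nonneg (pow_nonneg ha 2) (pow_nonneg hb 2), mul_nonneg (pow_nonneg ha 3) (pow_nonneg hb 1), mul_nonneg (pow_nonneg ha 4) (pow_nonneg hb 0)]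

theorem kn8 (t : ℝ) (h0 : 6283 / 2000 ≤ t) (h1 : t ≤ 18 / 5) :
    KN t (3.141592 - t) (691 / 6250) ≤ 1.1835 - 2.2 * (1 / 4) - 0.00001 := by
  unfold KN
  have ha : 0 ≤ t - 6283 / 2000 := by linarith
  have hb : 0 ≤ 18 / 5 - t := by linarith
  linarith [mul_nonneg (pow_nonneg ha 0) (pow_nonneg hb 4), mul_nonneg (pow_nonneg ha 1) (pow_nonneg hb 3), mul_nonneg (pow_nonneg ha 2) (pow_nonneg hb 2), mul_nonneg (pow_nonneg ha 3) (pow_nonneg hb 1), mul_nonneg (pow_nonneg ha 4) (pow_nonneg hb 0)]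

end Pool.Agent.Helper6.Pq
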